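import Mathlib
import Pool.Agent.H15.HX.Defs
import Pool.Agent.H9.Bry.COG0

set_option autoImplicit false

namespace Pool.Agent.H15.HX

open Finset Pool.Agent.H9.Bry

theorem hex_ds {F V : Type*} [Field F] [AddCommGroup V] [Module F V] {X : Set V}
    (hX : HexFree F X) (hc : IsCone F X) {Z : Set V} (hZ : Z ⊆ X) {x y p1 p2 p3 p4 : V}
    (hx : x ∈ X) (hy : y ∈ X) (h1 : p1 ∈ X) (h2 : p2 ∈ X) (h3 : p3 ∈ X) (h4 : p4 ∈ X)
    {α β γ : F} (hα : α ≠ 0) (hβ : β ≠ 0) (hγ : γ ≠ 0)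
    (e12 : p1 - p2 - α • x ∈ Submodule.span F Z) (e23 : p2 - p3 - β • y ∈ Submodule.span F Z)
    (e43 : p4 - p3 - γ • x ∈ Submodule.span F Z)
    (hind : ∀ c₁ c₂ c₃ : F, c₁ • x + c₂ • y + c₃ • p2 ∈ Submodule.span F Z →
      c₁ = 0 ∧ c₂ = 0 ∧ c₃ = 0) : False := by
  refine hX Z hZ (α • x) p2 (-p3) (-(γ / α)) (neg_ne_zero.2 (div_ne_zero hγ hα)) ?_
    ⟨α • x, hc α x hx, by simp⟩ ⟨p2, h2, by simp⟩ ⟨(-1 : F) • p3, hc _ _ h3, by simp⟩
    ⟨p1, h1, ?_⟩ ⟨β • y, hc _ _ hy, ?_⟩ ⟨(-1 : F) • p4, hc _ _ h4, ?_⟩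
  · intro c₁ c₂ c₃ h
    have h5 : (c₁ * α) • x + (c₃ * β) • y + (c₂ - c₃) • p2 ∈ Submodule.span F Z := by
      have h6 := Submodule.sub_mem _ h (Submodule.smul_mem _ c₃ e23)
      have h7 : (c₁ * α) • x + (c₃ * β) • y + (c₂ - c₃) • p2 =
          c₁ • α • x + c₂ • p2 + c₃ • -p3 - c₃ • (p2 - p3 - β • y) := by module
      rw [h7]
      exact h6
    obtain ⟨i1, i2, i3⟩ := hind _ _ _ h5
    have j1 : c₁ = 0 := (mul_eq_zero.1 i1).resolve_right hα
    have j3 : c₃ = 0 := (mul_eq_zero.1 i2).resolve_right hβ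
    refine ⟨j1, ?_, j3⟩
    rw [j3, sub_zero] at i3
    exact i3
  · have h6 := Submodule.neg_mem _ e12
    have h7 : α • x + p2 - p1 = -(p1 - p2 - α • x) := by module
    rw [h7]
    exact h6
  · have h7 : p2 + -p3 - β • y = p2 - p3 - β • y := by module
    rw [h7]
    exact e23
  · have h8 : -(γ / α) * α = -γ := by field_simp
    have h7 : -p3 + -(γ / α) • α • x - (-1 : F) • p4 = p4 - p3 - γ • x := by
      rw [smul_smul, h8]
      module
    rw [h7]
    exact e43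

theorem row_ds {F α ι : Type*} [Field F] [Fintype α] [DecidableEq α] (f : ι → α → F)
    (Q : Finset α) (hf : HRowFree f Q) {y₀ x y : α} (hy₀ : y₀ ∈ Q) (hx : x ∈ Q) (hy : y ∈ Q)
    {g1 g2 g3 g4 : α → F} (m1 : ∃ (c : F) (j : ι), g1 = c • f j) (m2 : ∃ (c : F) (j : ι), g2 = c • f j)
    (m3 : ∃ (c : F) (j : ι), g3 = c • f j) (m4 : ∃ (c : F) (j : ι), g4 = c • f j)
    (h0 : g2 y₀ ≠ 0) (e1 : g1 y₀ = g2 y₀) (e3 : g3 y₀ = g2 y₀) (e4 : g4 y₀ = g2 y₀)
    (a12 : g1 y = g2 y) (a23 : g2 x = g3 x) (a34 : g3 y = g4 y)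
    (b12 : g1 x ≠ g2 x) (b23 : g2 y ≠ g3 y) (b34 : g3 x ≠ g4 x) : False := by
  have hxy₀ : x ≠ y₀ := by
    rintro rfl
    exact b12 e1
  have hyy₀ : y ≠ y₀ := by
    rintro rfl
    exact b23 e3.symm
  have hxy : x ≠ y := by
    rintro rfl
    exact b12 a12
  obtain ⟨Y, hY⟩ : ∃ Y : Finset α, Y = {y₀, x, y} := ⟨_, rfl⟩
  have hYQ : Y ⊆ Q := by
    rw [hY]
    intro z hz
    simp only [mem_insert, mem_singleton] at hz
    rcases hz with rfl | rfl | rfl <;> assumption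
  have hxY : x ∈ Y := by rw [hY]; simp
  have hyY : y ∈ Y := by rw [hY]; simp
  have hy₀Y : y₀ ∈ Y := by rw [hY]; simp
  have hmY : ∀ z, z ∈ Y ↔ (z = y₀ ∨ z = x ∨ z = y) := by
    intro z
    rw [hY]
    simp
  have hmem : ∀ g : α → F, (∃ (c : F) (j : ι), g = c • f j) → res Y g ∈ rowSet f Y := by
    rintro g ⟨c, j, rfl⟩
    exact Or.inl ⟨c, j, by rw [map_smul]⟩
  have hres : ∀ (g : α → F) (z : α), res Y g z = if z ∈ Y then g z else 0 := fun g z => rfl
  have hsx : (Pi.single x (1 : F) : α → F) ∈ rowSet f Y := Or.inr ⟨1, x, hxY, by simp⟩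
  have hsy : (Pi.single y (1 : F) : α → F) ∈ rowSet f Y := Or.inr ⟨1, y, hyY, by simp⟩
  refine hex_ds (hf Y hYQ) (isCone_rowSet f Y) (Z := ∅) (Set.empty_subset _) hsx hsy
    (hmem g1 m1) (hmem g2 m2) (hmem g3 m3) (hmem g4 m4) (α := g1 x - g2 x) (β := g2 y - g3 y)
    (γ := g4 x - g3 x) (sub_ne_zero.2 b12) (sub_ne_zero.2 b23) (sub_ne_zero.2 (Ne.symm b34))
    ?_ ?_ ?_ ?_
  · have h : res Y g1 - res Y g2 - (g1 x - g2 x) • (Pi.single x (1 : F) : α → F) = 0 := by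
      ext z
      simp only [Pi.sub_apply, Pi.smul_apply, Pi.zero_apply, hres, smul_eq_mul, Pi.single_apply]
      by_cases hz : z ∈ Y
      · simp only [hz, if_true]
        rcases (hmY z).1 hz with rfl | rfl | rfl
        · simp [hxy₀.symm, e1]
        · simp
        · simp [hxy.symm, a12]
      · have hzx : z ≠ x := fun h => hz (h ▸ hxY)
        simp [hz, hzx]
    rw [h]
    exact Submodule.zero_mem _
  · have h : res Y g2 - res Y g3 - (g2 y - g3 y) • (Pi.single y (1 : F) : α → F) = 0 := by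
      ext z
      simp only [Pi.sub_apply, Pi.smul_apply, Pi.zero_apply, hres, smul_eq_mul, Pi.single_apply]
      by_cases hz : z ∈ Y
      · simp only [hz, if_true]
        rcases (hmY z).1 hz with rfl | rfl | rfl
        · simp [hyy₀.symm, e3]
        · simp [hxy, a23]
        · simp
      · have hzy : z ≠ y := fun h => hz (h ▸ hyY)
        simp [hz, hzy]
    rw [h]
    exact Submodule.zero_mem _
  · have h : res Y g4 - res Y g3 - (g4 x - g3 x) • (Pi.single x (1 : F) : α → F) = 0 := by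
      ext z
      simp only [Pi.sub_apply, Pi.smul_apply, Pi.zero_apply, hres, smul_eq_mul, Pi.single_apply]
      by_cases hz : z ∈ Y
      · simp only [hz, if_true]
        rcases (hmY z).1 hz with rfl | rfl | rfl
        · simp [hxy₀.symm, e3, e4]
        · simp
        · simp [hxy.symm, a34]
      · have hzx : z ≠ x := fun h => hz (h ▸ hxY)
        simp [hz, hzx]
    rw [h]
    exact Submodule.zero_mem _
  · intro c₁ c₂ c₃ h
    rw [Submodule.span_empty, Submodule.mem_bot] at h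
    have k0 := congrFun h y₀
    have k1 := congrFun h x
    have k2 := congrFun h y
    simp only [Pi.add_apply, Pi.smul_apply, Pi.zero_apply, hres, smul_eq_mul, Pi.single_apply,
      hy₀Y, hxY, hyY, if_true, if_neg hxy₀.symm, if_neg hyy₀.symm, if_neg hxy, if_neg hxy.symm,
      mul_zero, zero_add, add_zero, mul_one] at k0 k1 k2
    have l3 : c₃ = 0 := (mul_eq_zero.1 k0).resolve_right h0
    rw [l3, zero_mul, add_zero] at k1 k2
    exact ⟨k1, k2, l3⟩

end Pool.Agent.H15.HX
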