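import Mathlib
import Pool.Agent.H15.HX.Defs
import Pool.Agent.H52.HX.HDS
import Pool.Agent.H9.Bry.FE

set_option autoImplicit false

namespace Pool.Agent.H15.HX

open Finset Pool.Agent.H9.Bry

theorem hfe_zero {F V : Type*} [Field F] [Fintype F] [AddCommGroup V] [Module F V] {X : Set V}
    (hX : HexFree F X) (hc : IsCone F X) {n : ℕ} (f : PFan F X n) (a : Fin (n + 1) → F)
    (h0 : a 0 = 0) (j : Fin (n + 1)) (hj : a j ≠ 0) (θ : F)
    (hθ : θ ∈ fibT F X f.e (lc f.b a)) : θ = 0 := by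
  by_contra hθ0
  simp only [fibT, Finset.mem_filter, Finset.mem_univ, true_and] at hθ
  have hj0 : j ≠ 0 := fun h => hj (by rw [h, h0])
  set Z : Set V := f.b '' {i | i ≠ 0 ∧ i ≠ j} with hZ
  have hmem : ∀ i, i ≠ 0 → i ≠ j → f.b i ∈ Z := fun i h1 h2 => ⟨i, ⟨h1, h2⟩, rfl⟩
  refine hX Z ?_ (-f.e) (f.b 0 + f.b j) (-f.b j) (θ / a j) (div_ne_zero hθ0 hj)
    ?_ ?_ ?_ ?_ ?_ ?_ ?_
  · rintro _ ⟨i, _, rfl⟩; exact f.hb i
  · intro c₁ c₂ c₃ h
    have e1 := fn_van f.ε (Z := Z) (by rintro _ ⟨i, _, rfl⟩; exact f.εb i) h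
    have e2 := fn_van (LinearMap.proj 0 ∘ₗ f.φ : V →ₗ[F] F) (Z := Z) (by
      rintro _ ⟨i, hi, rfl⟩
      simp only [LinearMap.comp_apply, f.φb, LinearMap.proj_apply]
      exact Pi.single_eq_of_ne (Ne.symm hi.1) _) h
    have e3 := fn_van (LinearMap.proj j ∘ₗ f.φ : V →ₗ[F] F) (Z := Z) (by
      rintro _ ⟨i, hi, rfl⟩
      simp only [LinearMap.comp_apply, f.φb, LinearMap.proj_apply]
      exact Pi.single_eq_of_ne (Ne.symm hi.2) _) h
    simp only [map_add, map_smul, map_neg, f.εb, f.εe, smul_eq_mul, mul_zero, add_zero,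
      neg_zero] at e1
    simp only [LinearMap.comp_apply, map_add, map_smul, map_neg, f.φb, f.φe, LinearMap.proj_apply,
      smul_eq_mul] at e2 e3
    have e2' : c₂ = 0 := by simpa [Pi.single_eq_of_ne (Ne.symm hj0)] using e2
    have e3' : c₃ = 0 := by simpa [Pi.single_eq_of_ne hj0, e2'] using e3
    exact ⟨by simpa using e1, e2', e3'⟩
  · exact ⟨(-1 : F) • f.e, hc _ _ f.he, by simp⟩
  · refine ⟨_, f.hs j, ?_⟩
    rw [fn_prefix (F := F), ← fn_single (F := F) f.b j, ← fn_single (F := F) f.b 0, fn_add,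
      fn_sub]
    refine fn_lcmem _ _ _ (fun i hi => hmem i ?_ ?_)
    · rintro rfl
      apply hi
      simp [Pi.single_eq_of_ne (Ne.symm hj0)]
    · rintro rfl
      apply hi
      simp [Pi.single_eq_of_ne hj0]
  · exact ⟨(-1 : F) • f.b j, hc _ _ (f.hb j), by simp⟩
  · refine ⟨_, f.hlast, ?_⟩
    have e : -f.e + (f.b 0 + f.b j) - ((∑ l, f.b l) - f.e) =
        lc f.b ((Pi.single j (1 : F) + Pi.single 0 (1 : F) : Fin (n + 1) → F) - fun _ => (1 : F)) := by
      rw [fn_all (F := F), ← fn_sub, ← fn_add, fn_single, fn_single]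
      abel
    rw [e]
    refine fn_lcmem _ _ _ (fun i hi => hmem i ?_ ?_)
    · rintro rfl
      apply hi
      simp [Pi.single_eq_of_ne (Ne.symm hj0)]
    · rintro rfl
      apply hi
      simp [Pi.single_eq_of_ne hj0]
  · exact ⟨_, f.hb 0, by simp⟩
  · refine ⟨(-(a j)⁻¹) • (lc f.b a + θ • f.e), hc _ _ hθ, ?_⟩
    have e : -f.b j + (θ / a j) • -f.e - (-(a j)⁻¹) • (lc f.b a + θ • f.e) =
        lc f.b ((a j)⁻¹ • a - Pi.single j 1) := by
      rw [← fn_sub, ← fn_smul, fn_single, smul_add, smul_smul]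
      have : -(a j)⁻¹ * θ = -(θ / a j) := by field_simp
      rw [this]
      module
    rw [e]
    refine fn_lcmem _ _ _ (fun i hi => hmem i ?_ ?_)
    · rintro rfl
      apply hi
      simp [h0, Pi.single_eq_of_ne (Ne.symm hj0)]
    · rintro rfl
      apply hi
      simp [hj]

theorem hfe_disj {F V : Type*} [Field F] [Fintype F] [AddCommGroup V] [Module F V] {X : Set V}
    (hX : HexFree F X) (hc : IsCone F X) {n : ℕ} (f : PFan F X n) (a a' : Fin (n + 1) → F)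
    (hne : a ≠ a') (h0 : a 0 = a' 0) (h00 : a 0 ≠ 0) {θ θ₂ θ₃ : F}
    (hθ : θ ∈ fibT F X f.e (lc f.b a)) (hθ' : θ ∈ fibT F X f.e (lc f.b a'))
    (hθ₂ : θ₂ ∈ fibT F X f.e (lc f.b a)) (hθ₃ : θ₃ ∈ fibT F X f.e (lc f.b a'))
    (h2 : θ₂ ≠ θ) (h3 : θ₃ ≠ θ) : False := by
  simp only [fibT, Finset.mem_filter, Finset.mem_univ, true_and] at hθ hθ' hθ₂ hθ₃
  obtain ⟨j, hj⟩ := Function.ne_iff.1 hne
  have hj0 : j ≠ 0 := by
    rintro rfl
    exact hj h0
  set Z : Set V := f.b '' {i | i ≠ 0 ∧ i ≠ j} with hZ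
  have hmem : ∀ i, i ≠ 0 → i ≠ j → f.b i ∈ Z := fun i h1 h2 => ⟨i, ⟨h1, h2⟩, rfl⟩
  have hZX : Z ⊆ X := by
    rintro _ ⟨i, _, rfl⟩; exact f.hb i
  refine hex_ds hX hc hZX f.he (f.hb j) hθ₂ hθ hθ' hθ₃ (α := θ₂ - θ) (β := a j - a' j)
    (γ := θ₃ - θ) (sub_ne_zero.2 h2) (sub_ne_zero.2 hj) (sub_ne_zero.2 h3) ?_ ?_ ?_ ?_
  · have e : lc f.b a + θ₂ • f.e - (lc f.b a + θ • f.e) - (θ₂ - θ) • f.e = 0 := by module
    rw [e]
    exact Submodule.zero_mem _
  · have e : lc f.b a + θ • f.e - (lc f.b a' + θ • f.e) - (a j - a' j) • f.b j =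
        lc f.b (a - a' - (a j - a' j) • Pi.single j 1) := by
      rw [← fn_sub, ← fn_sub, ← fn_smul, fn_single]
      module
    rw [e]
    refine fn_lcmem _ _ _ (fun i hi => hmem i ?_ ?_)
    · rintro rfl
      apply hi
      simp [h0, Pi.single_eq_of_ne (Ne.symm hj0)]
    · rintro rfl
      apply hi
      simp
  · have e : lc f.b a' + θ₃ • f.e - (lc f.b a' + θ • f.e) - (θ₃ - θ) • f.e = 0 := by module
    rw [e]
    exact Submodule.zero_mem _
  · intro c₁ c₂ c₃ h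
    have e1 := fn_van f.ε (Z := Z) (by rintro _ ⟨i, _, rfl⟩; exact f.εb i) h
    have e2 := fn_van (LinearMap.proj 0 ∘ₗ f.φ : V →ₗ[F] F) (Z := Z) (by
      rintro _ ⟨i, hi, rfl⟩
      simp only [LinearMap.comp_apply, f.φb, LinearMap.proj_apply]
      exact Pi.single_eq_of_ne (Ne.symm hi.1) _) h
    have e3 := fn_van (LinearMap.proj j ∘ₗ f.φ : V →ₗ[F] F) (Z := Z) (by
      rintro _ ⟨i, hi, rfl⟩
      simp only [LinearMap.comp_apply, f.φb, LinearMap.proj_apply]
      exact Pi.single_eq_of_ne (Ne.symm hi.2) _) h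
    have hεlc : f.ε (lc f.b a) = 0 := by simp [lc, map_sum, f.εb]
    simp only [map_add, map_smul, f.εb, f.εe, hεlc, smul_eq_mul, mul_zero, add_zero, zero_add,
      mul_one] at e1
    simp only [LinearMap.comp_apply, map_add, map_smul, f.φb, f.φe, fn_phi, LinearMap.proj_apply,
      smul_eq_mul, Pi.single_eq_of_ne (Ne.symm hj0), mul_zero, zero_add, add_zero,
      Pi.zero_apply, map_zero, Pi.single_eq_same, mul_one] at e2 e3
    have k3 : c₃ = 0 := (mul_eq_zero.1 e2).resolve_right h00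
    rw [k3, zero_mul, add_zero] at e1 e3
    exact ⟨e1, e3, k3⟩

theorem hfe_count {ι β : Type*} [DecidableEq ι] [DecidableEq β] (S : Finset ι)
    (T : ι → Finset β) (A : Finset β) (hT : ∀ i ∈ S, T i ⊆ A)
    (hdis : ∀ i ∈ S, ∀ j ∈ S, i ≠ j → 2 ≤ (T i).card → 2 ≤ (T j).card → Disjoint (T i) (T j)) :
    ∑ i ∈ S, ((T i).card - 1) ≤ A.card - 1 := by
  obtain ⟨S', hS'⟩ : ∃ S' : Finset ι, S' = S.filter (fun i => 2 ≤ (T i).card) := ⟨_, rfl⟩
  have h1 : ∑ i ∈ S, ((T i).card - 1) = ∑ i ∈ S', ((T i).card - 1) := by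
    rw [hS', Finset.sum_filter]
    refine Finset.sum_congr rfl fun i _ => ?_
    split_ifs with h
    · rfl
    · omega
  rw [h1]
  rcases S'.eq_empty_or_nonempty with h | ⟨i₀, hi₀⟩
  · rw [h, Finset.sum_empty]
    exact Nat.zero_le _
  · have h2 : ∑ i ∈ S', (T i).card = (S'.biUnion T).card := by
      rw [Finset.card_biUnion]
      intro i hi j hj hij
      rw [Finset.mem_coe, hS', Finset.mem_filter] at hi hj
      exact hdis i hi.1 j hj.1 hij hi.2 hj.2
    have h3 : (S'.biUnion T).card ≤ A.card := by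
      refine Finset.card_le_card ?_
      intro x hx
      rw [Finset.mem_biUnion] at hx
      obtain ⟨i, hi, hx⟩ := hx
      rw [hS', Finset.mem_filter] at hi
      exact hT i hi.1 hx
    have h4 : ∑ i ∈ S', ((T i).card - 1) + 1 ≤ ∑ i ∈ S', (T i).card := by
      rw [← Finset.add_sum_erase _ _ hi₀, ← Finset.add_sum_erase S' (fun i => (T i).card) hi₀]
      have h5 : ∑ i ∈ S'.erase i₀, ((T i).card - 1) ≤ ∑ i ∈ S'.erase i₀, (T i).card :=
        Finset.sum_le_sum fun i _ => Nat.sub_le _ _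
      have h6 : 2 ≤ (T i₀).card := by
        rw [hS', Finset.mem_filter] at hi₀
        exact hi₀.2
      omega
    omega

open Classical in
theorem hfan_end {F V : Type*} [Field F] [Fintype F] [AddCommGroup V] [Module F V] {X : Set V}
    (hX : HexFree F X) (hc : IsCone F X) {n : ℕ} (f : PFan F X n) :
    ∑ a ∈ (Finset.univ : Finset (Fin (n + 1) → F)).erase 0,
      ((fibT F X f.e (lc f.b a)).card - 1) ≤ (Fintype.card F - 1) * (Fintype.card F - 1) := by
  rw [← Finset.sum_filter_add_sum_filter_not _ (fun a : Fin (n + 1) → F => a 0 ≠ 0)]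
  have h1 : ∑ a ∈ ((Finset.univ : Finset (Fin (n + 1) → F)).erase 0) with ¬ (a 0 ≠ 0),
      ((fibT F X f.e (lc f.b a)).card - 1) = 0 := by
    refine Finset.sum_eq_zero fun a ha => ?_
    rw [Finset.mem_filter, Finset.mem_erase] at ha
    obtain ⟨⟨ha1, _⟩, ha2⟩ := ha
    have ha0 : a 0 = 0 := by simpa using ha2
    obtain ⟨j, hj⟩ := Function.ne_iff.1 ha1
    have h2 : fibT F X f.e (lc f.b a) ⊆ {0} := by
      intro θ hθ
      rw [Finset.mem_singleton]
      exact hfe_zero hX hc f a ha0 j hj θ hθ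
    have h3 := Finset.card_le_card h2
    rw [Finset.card_singleton] at h3
    omega
  rw [h1, add_zero]
  refine fe_sum_le ((Finset.univ : Finset (Fin (n + 1) → F)).erase 0)
    (fun a : Fin (n + 1) → F => a 0) (fun a => (fibT F X f.e (lc f.b a)).card - 1) _
    fun c hc0 => ?_
  have h := hfe_count ((((Finset.univ : Finset (Fin (n + 1) → F)).erase 0)).filter
      (fun a => a 0 = c))
    (fun a => fibT F X f.e (lc f.b a)) (Finset.univ : Finset F) (fun _ _ => subset_univ _) (by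
      intro a ha a' ha' hne h2 h3
      rw [mem_filter] at ha ha'
      rw [Finset.disjoint_left]
      intro θ hθ hθ'
      obtain ⟨θ₂, hθ₂, hn₂⟩ := Finset.exists_mem_ne (s := fibT F X f.e (lc f.b a)) (by omega) θ
      obtain ⟨θ₃, hθ₃, hn₃⟩ := Finset.exists_mem_ne (s := fibT F X f.e (lc f.b a')) (by omega) θ
      exact hfe_disj hX hc f a a' hne (ha.2.trans ha'.2.symm) (by rw [ha.2]; exact hc0) hθ hθ'
        hθ₂ hθ₃ hn₂ hn₃)
  rwa [Finset.card_univ] at h

end Pool.Agent.H15.HX
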